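import Mathlib

set_option autoImplicit false

namespace Pool.Agent.Results.MP_1e8505_an.HalmosShift

open scoped InnerProductSpace
open Polynomial Filter Topology

/-- The exponents of the cumulative weights: `E (n + 1) = E n - |n|` and `E 0 = 0`. -/
def E (n : ℤ) : ℤ := if 0 ≤ n then -(n * (n - 1) / 2) else n * (n - 1) / 2

lemma two_half (n : ℤ) : 2 * (n * (n - 1) / 2) = n * (n - 1) := by
  have h : (2 : ℤ) ∣ n * (n - 1) := (Int.even_mul_pred_self n).two_dvd
  omega

lemma two_E_of_nonneg {n : ℤ} (h : 0 ≤ n) : 2 * E n = -(n * (n - 1)) := by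
  rw [E, if_pos h, mul_neg, two_half]

lemma two_E_of_nonpos {n : ℤ} (h : n ≤ 0) : 2 * E n = n * (n - 1) := by
  rcases h.lt_or_eq with h1 | rfl
  · rw [E, if_neg (not_le.2 h1), two_half]
  · simp [E]

lemma E_succ (n : ℤ) : E (n + 1) = E n - |n| := by
  rcases le_or_gt 0 n with h | h
  · have h1 := two_E_of_nonneg h
    have h2 := two_E_of_nonneg (show 0 ≤ n + 1 by omega)
    rw [abs_of_nonneg h]
    have h3 : 2 * E (n + 1) = 2 * (E n - n) := by linear_combination h2 - h1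
    omega
  · have h1 := two_E_of_nonpos h.le
    have h2 := two_E_of_nonpos (show n + 1 ≤ 0 by omega)
    rw [abs_of_neg h]
    have h3 : 2 * E (n + 1) = 2 * (E n - -n) := by linear_combination h2 - h1
    omega

lemma expo_small (N a b : ℤ) (_hN : 1 ≤ N) (ha : -N ≤ a) (hb : -N ≤ b) (hab : a + b < 0) :
    N * (a + b) - E (-a) + E b ≤ 0 := by
  suffices h : 2 * (N * (a + b) - E (-a) + E b) ≤ 0 by omega
  have e1 : 2 * (N * (a + b) - E (-a) + E b) = 2 * N * (a + b) - 2 * E (-a) + 2 * E b := by ring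
  rw [e1]
  rcases le_total a 0 with h1 | h1
  · rw [two_E_of_nonneg (show 0 ≤ -a by omega)]
    rcases le_total b 0 with h2 | h2
    · rw [two_E_of_nonpos h2]
      nlinarith [mul_nonneg (neg_nonneg.2 h1) (show 0 ≤ 2 * N + a + 1 by omega),
        mul_nonneg (neg_nonneg.2 h2) (show 0 ≤ 2 * N + b - 1 by omega)]
    · rw [two_E_of_nonneg h2]
      nlinarith [mul_nonneg (show 0 ≤ -(a + b) by omega) (show 0 ≤ 2 * N + a - b + 1 by omega)]
  · rw [two_E_of_nonpos (show -a ≤ 0 by omega), two_E_of_nonpos (show b ≤ 0 by omega)]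
    nlinarith [mul_nonneg (show 0 ≤ -(a + b) by omega) (show 0 ≤ 2 * N - a + b - 1 by omega)]

lemma expo_large (N a b : ℤ) (hN : 1 ≤ N) (hab : 0 ≤ a + b)
    (h : ¬ ((-N ≤ a ∧ a ≤ 4 * N) ∧ -N ≤ b ∧ b ≤ 4 * N)) :
    N * (a + b) - E (-a) + E b ≤ 0 := by
  suffices h : 2 * (N * (a + b) - E (-a) + E b) ≤ 0 by omega
  have e1 : 2 * (N * (a + b) - E (-a) + E b) = 2 * N * (a + b) - 2 * E (-a) + 2 * E b := by ring
  rw [e1]
  by_cases h1 : a < -N
  · rw [two_E_of_nonneg (show 0 ≤ -a by omega), two_E_of_nonneg (show 0 ≤ b by omega)]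
    nlinarith [mul_nonneg hab (show 0 ≤ -(2 * N + a - b + 1) by omega)]
  by_cases h2 : b < -N
  · rw [two_E_of_nonpos (show -a ≤ 0 by omega), two_E_of_nonpos (show b ≤ 0 by omega)]
    nlinarith [mul_nonneg hab (show 0 ≤ -(2 * N - a + b - 1) by omega)]
  by_cases h3 : 4 * N < a
  · rw [two_E_of_nonpos (show -a ≤ 0 by omega)]
    rcases le_total b 0 with h4 | h4
    · rw [two_E_of_nonpos h4]
      nlinarith [mul_nonneg (show 0 ≤ a by omega) (show 0 ≤ -(2 * N - a - 1) by omega),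
        mul_nonneg (neg_nonneg.2 h4) (show 0 ≤ 2 * N + b - 1 by omega)]
    · rw [two_E_of_nonneg h4]
      nlinarith [mul_nonneg (show 0 ≤ a - 4 * N by omega) (show 0 ≤ -(2 * N - a - 1) by omega),
        sq_nonneg (2 * b - 2 * N - 1)]
  · have h4 : 4 * N < b := by
      by_contra h4
      exact h ⟨⟨by omega, by omega⟩, by omega, by omega⟩
    rw [two_E_of_nonneg (show 0 ≤ b by omega)]
    rcases le_total a 0 with h5 | h5
    · rw [two_E_of_nonneg (show 0 ≤ -a by omega)]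
      nlinarith [mul_nonneg (show 0 ≤ b by omega) (show 0 ≤ -(2 * N - b + 1) by omega),
        mul_nonneg (neg_nonneg.2 h5) (show 0 ≤ 2 * N + a + 1 by omega)]
    · rw [two_E_of_nonpos (show -a ≤ 0 by omega)]
      nlinarith [mul_nonneg (show 0 ≤ b - 4 * N by omega) (show 0 ≤ -(2 * N - b + 1) by omega),
        sq_nonneg (2 * a - 2 * N + 1)]

/-- a real power of two with integer exponent -/
lemma zpow_le_one_of_nonpos {m : ℤ} (h : m ≤ 0) : (2 : ℝ) ^ m ≤ 1 := by
  calc (2 : ℝ) ^ m ≤ 2 ^ (0 : ℤ) := zpow_le_zpow_right₀ (by norm_num) h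
    _ = 1 := zpow_zero _

section titchmarsh

variable {u v : ℤ → ℂ}

/-- weighted coefficients of the first sequence -/
noncomputable def U (u : ℤ → ℂ) (a : ℤ) : ℂ := u a * (2 : ℂ) ^ (-E (-a))

/-- weighted coefficients of the second sequence -/
noncomputable def V (v : ℤ → ℂ) (b : ℤ) : ℂ := v b * (2 : ℂ) ^ (E b)

lemma norm_term (N a b : ℤ) :
    ‖U u a * V v b * (2 : ℂ) ^ (N * (a + b))‖ =
      ‖u a‖ * ‖v b‖ * (2 : ℝ) ^ (N * (a + b) - E (-a) + E b) := by
  have h2 : (2 : ℝ) ≠ 0 := by norm_num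
  simp only [U, V, norm_mul, norm_zpow, Complex.norm_ofNat]
  rw [zpow_add₀ h2, sub_eq_add_neg, zpow_add₀ h2]
  ring

lemma term_le {N a b : ℤ} (h : N * (a + b) - E (-a) + E b ≤ 0) :
    ‖U u a * V v b * (2 : ℂ) ^ (N * (a + b))‖ ≤ (‖u a‖ ^ 2 + ‖v b‖ ^ 2) / 2 := by
  rw [norm_term]
  have h1 := zpow_le_one_of_nonpos h
  have h0 : (0 : ℝ) ≤ (2 : ℝ) ^ (N * (a + b) - E (-a) + E b) := by positivity
  have h3 : 0 ≤ ‖u a‖ * ‖v b‖ := by positivity
  nlinarith [sq_nonneg (‖u a‖ - ‖v b‖), mul_le_mul_of_nonneg_left h1 h3]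

/-- the constant bounding all coefficients -/
noncomputable def bnd (u v : ℤ → ℂ) : ℝ := ((∑' a, ‖u a‖ ^ 2) + ∑' b, ‖v b‖ ^ 2) / 2

lemma summable_c (hu : Summable fun a => ‖u a‖ ^ 2) (hv : Summable fun b => ‖v b‖ ^ 2) (k : ℤ) :
    Summable fun a => (‖u a‖ ^ 2 + ‖v (k - a)‖ ^ 2) / 2 := by
  have h1 : Summable fun a => ‖v (k - a)‖ ^ 2 :=
    (Equiv.subLeft k).summable_iff.2 hv
  exact (hu.add h1).div_const 2

lemma tsum_c (hu : Summable fun a => ‖u a‖ ^ 2) (hv : Summable fun b => ‖v b‖ ^ 2) (k : ℤ) :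
    ∑' a, (‖u a‖ ^ 2 + ‖v (k - a)‖ ^ 2) / 2 = bnd u v := by
  have h1 : Summable fun a => ‖v (k - a)‖ ^ 2 :=
    (Equiv.subLeft k).summable_iff.2 hv
  have h2 : ∑' a, ‖v (k - a)‖ ^ 2 = ∑' b, ‖v b‖ ^ 2 :=
    (Equiv.subLeft k).tsum_eq (fun b => ‖v b‖ ^ 2)
  rw [tsum_div_const, hu.tsum_add h1, h2, bnd]

/-- the finite window of indices -/
noncomputable def win (N k : ℤ) : Finset ℤ :=
  (Finset.Icc (-N) (4 * N)).filter fun a => -N ≤ k - a ∧ k - a ≤ 4 * N

lemma mem_win {N k a : ℤ} :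
    a ∈ win N k ↔ (-N ≤ a ∧ a ≤ 4 * N) ∧ -N ≤ k - a ∧ k - a ≤ 4 * N := by
  simp [win]

lemma window_bound (hu : Summable fun a => ‖u a‖ ^ 2) (hv : Summable fun b => ‖v b‖ ^ 2)
    (hconv : ∀ k : ℕ, ∑' a, U u a * V v ((k : ℤ) - a) = 0) {N : ℤ} (hN : 1 ≤ N) (k : ℤ) :
    ‖∑ a ∈ win N k, U u a * V v (k - a) * (2 : ℂ) ^ (N * k)‖ ≤ bnd u v := by
  have hs := summable_c hu hv k
  rw [← tsum_c hu hv k]
  rcases lt_or_ge k 0 with hk | hk
  · calc _ ≤ ∑ a ∈ win N k, ‖U u a * V v (k - a) * (2 : ℂ) ^ (N * k)‖ := norm_sum_le _ _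
      _ ≤ ∑ a ∈ win N k, (‖u a‖ ^ 2 + ‖v (k - a)‖ ^ 2) / 2 := by
          refine Finset.sum_le_sum fun a ha => ?_
          rw [mem_win] at ha
          have h1 := term_le (u := u) (v := v)
            (expo_small N a (k - a) hN ha.1.1 ha.2.1 (by omega))
          rwa [show a + (k - a) = k by ring] at h1
      _ ≤ _ := hs.sum_le_tsum _ fun a _ => by positivity
  · obtain ⟨n, rfl⟩ := Int.eq_ofNat_of_zero_le hk
    have hbig : ∀ a, a ∉ win N (n : ℤ) →
        ‖U u a * V v ((n : ℤ) - a) * (2 : ℂ) ^ (N * n)‖ ≤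
          (‖u a‖ ^ 2 + ‖v ((n : ℤ) - a)‖ ^ 2) / 2 := by
      intro a ha
      rw [mem_win] at ha
      have h1 := term_le (u := u) (v := v)
        (expo_large N a ((n : ℤ) - a) hN (by omega) ha)
      rwa [show a + ((n : ℤ) - a) = n by ring] at h1
    have hsum : Summable fun a => U u a * V v ((n : ℤ) - a) * (2 : ℂ) ^ (N * n) := by
      refine Summable.of_norm ?_
      refine (summable_of_hasFiniteSupport (f := fun a => if a ∈ win N (n : ℤ) then
        ‖U u a * V v ((n : ℤ) - a) * (2 : ℂ) ^ (N * n)‖ else 0) ?_).add hs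
        |>.of_nonneg_of_le (fun a => norm_nonneg _) fun a => ?_
      · refine (win N (n : ℤ)).finite_toSet.subset fun a ha => ?_
        by_contra hcon
        exact ha (if_neg hcon)
      · by_cases ha : a ∈ win N (n : ℤ)
        · simp only [if_pos ha]
          have : (0 : ℝ) ≤ (‖u a‖ ^ 2 + ‖v ((n : ℤ) - a)‖ ^ 2) / 2 := by positivity
          linarith
        · simp only [if_neg ha, zero_add]
          exact hbig a ha
    have htot : ∑' a, U u a * V v ((n : ℤ) - a) * (2 : ℂ) ^ (N * n) = 0 := by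
      rw [tsum_mul_right, hconv n, zero_mul]
    have hsplit := hsum.sum_add_tsum_compl (s := win N (n : ℤ))
    rw [htot] at hsplit
    have h3 : ∑ a ∈ win N (n : ℤ), U u a * V v ((n : ℤ) - a) * (2 : ℂ) ^ (N * n) =
        -∑' a : ((win N (n : ℤ) : Set ℤ)ᶜ : Set ℤ),
          U u a * V v ((n : ℤ) - a) * (2 : ℂ) ^ (N * n) := eq_neg_of_add_eq_zero_left hsplit
    rw [h3, norm_neg]
    have hs' : Summable fun a : ((win N (n : ℤ) : Set ℤ)ᶜ : Set ℤ) =>
        (‖u a‖ ^ 2 + ‖v ((n : ℤ) - a)‖ ^ 2) / 2 := hs.subtype _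
    calc _ ≤ ∑' a : ((win N (n : ℤ) : Set ℤ)ᶜ : Set ℤ),
          (‖u a‖ ^ 2 + ‖v ((n : ℤ) - a)‖ ^ 2) / 2 := by
          refine tsum_of_norm_bounded hs'.hasSum fun a => ?_
          exact hbig a fun h => a.2 h
      _ ≤ _ := hs.tsum_subtype_le _ _ fun a => by positivity

/-- the truncated polynomial of the first sequence -/
noncomputable def PU (u : ℤ → ℂ) (N : ℕ) : ℂ[X] :=
  ∑ j ∈ Finset.range (5 * N + 1),
    monomial j (U u ((j : ℤ) - N) * (2 : ℂ) ^ ((N : ℤ) * ((j : ℤ) - N)))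

/-- the truncated polynomial of the second sequence -/
noncomputable def PV (v : ℤ → ℂ) (N : ℕ) : ℂ[X] :=
  ∑ j ∈ Finset.range (5 * N + 1),
    monomial j (V v ((j : ℤ) - N) * (2 : ℂ) ^ ((N : ℤ) * ((j : ℤ) - N)))

lemma PU_coeff (N j : ℕ) : (PU u N).coeff j =
    if j < 5 * N + 1 then U u ((j : ℤ) - N) * (2 : ℂ) ^ ((N : ℤ) * ((j : ℤ) - N)) else 0 := by
  simp only [PU, finsetSum_coeff, coeff_monomial, Finset.sum_ite_eq', Finset.mem_range]

lemma PV_coeff (N j : ℕ) : (PV v N).coeff j =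
    if j < 5 * N + 1 then V v ((j : ℤ) - N) * (2 : ℂ) ^ ((N : ℤ) * ((j : ℤ) - N)) else 0 := by
  simp only [PV, finsetSum_coeff, coeff_monomial, Finset.sum_ite_eq', Finset.mem_range]

lemma PU_natDegree (N : ℕ) : (PU u N).natDegree ≤ 5 * N := by
  rw [natDegree_le_iff_coeff_eq_zero]
  intro j hj
  rw [PU_coeff, if_neg (by omega)]

lemma PV_natDegree (N : ℕ) : (PV v N).natDegree ≤ 5 * N := by
  rw [natDegree_le_iff_coeff_eq_zero]
  intro j hj
  rw [PV_coeff, if_neg (by omega)]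

lemma coeff_prod (N i : ℕ) : (PU u N * PV v N).coeff i =
    ∑ a ∈ win N ((i : ℤ) - 2 * N),
      U u a * V v ((i : ℤ) - 2 * N - a) * (2 : ℂ) ^ ((N : ℤ) * ((i : ℤ) - 2 * N)) := by
  rw [coeff_mul, Finset.Nat.sum_antidiagonal_eq_sum_range_succ
    (fun x y => (PU u N).coeff x * (PV v N).coeff y)]
  symm
  refine Finset.sum_of_injOn (fun a => (a + (N : ℤ)).toNat) ?_ ?_ ?_ ?_
  · intro a ha b hb hab
    rw [Finset.mem_coe, mem_win] at ha hb
    simp only at hab
    omega
  · intro a ha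
    rw [Finset.mem_coe, mem_win] at ha
    simp only [Finset.coe_range, Set.mem_Iio]
    omega
  · intro x hx hx'
    rw [Finset.mem_range] at hx
    rw [PU_coeff, PV_coeff]
    by_cases h1 : x < 5 * N + 1
    · by_cases h2 : i - x < 5 * N + 1
      · exfalso
        apply hx'
        refine ⟨(x : ℤ) - N, ?_, ?_⟩
        · rw [Finset.mem_coe, mem_win]
          omega
        · simp
      · rw [if_neg h2, mul_zero]
    · rw [if_neg h1, zero_mul]
  · intro a ha
    rw [mem_win] at ha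
    have h1 : (((a + (N : ℤ)).toNat : ℕ) : ℤ) = a + N := Int.toNat_of_nonneg (by omega)
    have h2 : ((i - (a + (N : ℤ)).toNat : ℕ) : ℤ) = i - (a + N) := by omega
    rw [PU_coeff, PV_coeff, if_pos (by omega), if_pos (by omega), h1, h2]
    have h3 : a + (N : ℤ) - N = a := by ring
    have h4 : (i : ℤ) - (a + N) - N = i - 2 * N - a := by ring
    have h5 : (N : ℤ) * ((i : ℤ) - 2 * N) = N * a + N * (i - 2 * N - a) := by ring
    rw [h3, h4, h5, zpow_add₀ (by norm_num : (2 : ℂ) ≠ 0)]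
    ring

lemma mahler_prod (hu : Summable fun a => ‖u a‖ ^ 2) (hv : Summable fun b => ‖v b‖ ^ 2)
    (hconv : ∀ k : ℕ, ∑' a, U u a * V v ((k : ℤ) - a) = 0) {N : ℕ} (hN : 1 ≤ N) :
    (PU u N).mahlerMeasure * (PV v N).mahlerMeasure ≤ (10 * N + 1) * bnd u v := by
  rw [← mahlerMeasure_mul]
  refine (mahlerMeasure_le_sum_norm_coeff _).trans ?_
  have hdeg : (PU u N * PV v N).natDegree < 10 * N + 1 := by
    refine lt_of_le_of_lt natDegree_mul_le ?_
    have h1 := PU_natDegree (u := u) N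
    have h2 := PV_natDegree (v := v) N
    omega
  rw [sum_over_range' (PU u N * PV v N) (f := fun _ a => ‖a‖) (fun _ => norm_zero)
    (10 * N + 1) hdeg]
  calc ∑ i ∈ Finset.range (10 * N + 1), ‖(PU u N * PV v N).coeff i‖
      ≤ ∑ i ∈ Finset.range (10 * N + 1), bnd u v := by
        refine Finset.sum_le_sum fun i _ => ?_
        rw [coeff_prod]
        exact window_bound hu hv hconv (by exact_mod_cast hN) _
    _ = (10 * N + 1) * bnd u v := by
        rw [Finset.sum_const, Finset.card_range, nsmul_eq_mul]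
        push_cast
        ring

lemma lower_PU {N : ℕ} {a : ℤ} (ha : -N ≤ a ∧ a ≤ 4 * N) :
    ‖U u a‖ * (2 : ℝ) ^ ((N : ℤ) * a) ≤ 2 ^ (5 * N) * (PU u N).mahlerMeasure := by
  have h := norm_coeff_le_choose_mul_mahlerMeasure (a + N).toNat (PU u N)
  have h1 : (((a + (N : ℤ)).toNat : ℕ) : ℤ) = a + N := Int.toNat_of_nonneg (by omega)
  rw [PU_coeff, if_pos (by omega), h1, add_sub_cancel_right, norm_mul, norm_zpow,
    Complex.norm_ofNat] at h
  refine h.trans ?_
  have h2 : (((PU u N).natDegree.choose (a + N).toNat : ℕ) : ℝ) ≤ 2 ^ (5 * N) := by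
    have h3 : (PU u N).natDegree.choose (a + N).toNat ≤ 2 ^ (5 * N) :=
      (Nat.choose_le_two_pow _ _).trans (Nat.pow_le_pow_right (by norm_num) (PU_natDegree N))
    exact_mod_cast h3
  exact mul_le_mul_of_nonneg_right h2 (mahlerMeasure_nonneg _)

lemma lower_PV {N : ℕ} {a : ℤ} (ha : -N ≤ a ∧ a ≤ 4 * N) :
    ‖V v a‖ * (2 : ℝ) ^ ((N : ℤ) * a) ≤ 2 ^ (5 * N) * (PV v N).mahlerMeasure := by
  have h := norm_coeff_le_choose_mul_mahlerMeasure (a + N).toNat (PV v N)
  have h1 : (((a + (N : ℤ)).toNat : ℕ) : ℤ) = a + N := Int.toNat_of_nonneg (by omega)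
  rw [PV_coeff, if_pos (by omega), h1, add_sub_cancel_right, norm_mul, norm_zpow,
    Complex.norm_ofNat] at h
  refine h.trans ?_
  have h2 : (((PV v N).natDegree.choose (a + N).toNat : ℕ) : ℝ) ≤ 2 ^ (5 * N) := by
    have h3 : (PV v N).natDegree.choose (a + N).toNat ≤ 2 ^ (5 * N) :=
      (Nat.choose_le_two_pow _ _).trans (Nat.pow_le_pow_right (by norm_num) (PV_natDegree N))
    exact_mod_cast h3
  exact mul_le_mul_of_nonneg_right h2 (mahlerMeasure_nonneg _)

lemma sum_le_ten (hu : Summable fun a => ‖u a‖ ^ 2) (hv : Summable fun b => ‖v b‖ ^ 2)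
    (hconv : ∀ k : ℕ, ∑' a, U u a * V v ((k : ℤ) - a) = 0) {a b : ℤ} (ha : u a ≠ 0)
    (hb : v b ≠ 0) : a + b ≤ 10 := by
  by_contra hab
  have hab' : 11 ≤ a + b := by omega
  have hU : 0 < ‖U u a‖ := by
    rw [norm_pos_iff, U]
    exact mul_ne_zero ha (zpow_ne_zero _ (by norm_num))
  have hV : 0 < ‖V v b‖ := by
    rw [norm_pos_iff, V]
    exact mul_ne_zero hb (zpow_ne_zero _ (by norm_num))
  have hB : 0 ≤ bnd u v := by
    unfold bnd
    have h1 : 0 ≤ ∑' a, ‖u a‖ ^ 2 := tsum_nonneg fun a => by positivity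
    have h2 : 0 ≤ ∑' b, ‖v b‖ ^ 2 := tsum_nonneg fun b => by positivity
    linarith
  -- the main inequality for large N
  have key : ∀ N : ℕ, 1 ≤ N → a.natAbs ≤ N → b.natAbs ≤ N →
      ‖U u a‖ * ‖V v b‖ * 2 ^ N ≤ (10 * N + 1) * bnd u v := by
    intro N hN1 haN hbN
    have h1 := lower_PU (u := u) (N := N) (a := a) ⟨by omega, by omega⟩
    have h2 := lower_PV (v := v) (N := N) (a := b) ⟨by omega, by omega⟩
    have h3 := mahler_prod hu hv hconv hN1
    have h4 : (‖U u a‖ * (2 : ℝ) ^ ((N : ℤ) * a)) * (‖V v b‖ * (2 : ℝ) ^ ((N : ℤ) * b)) ≤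
        (2 ^ (5 * N) * (PU u N).mahlerMeasure) * (2 ^ (5 * N) * (PV v N).mahlerMeasure) :=
      mul_le_mul h1 h2 (by positivity)
        (mul_nonneg (by positivity) (mahlerMeasure_nonneg _))
    have h5 : (2 ^ (5 * N) * (PU u N).mahlerMeasure) * (2 ^ (5 * N) * (PV v N).mahlerMeasure) ≤
        2 ^ (10 * N) * ((10 * N + 1) * bnd u v) := by
      calc _ = (2 : ℝ) ^ (10 * N) * ((PU u N).mahlerMeasure * (PV v N).mahlerMeasure) := by
            rw [show 10 * N = 5 * N + 5 * N by ring, pow_add]; ring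
        _ ≤ _ := mul_le_mul_of_nonneg_left h3 (by positivity)
    have h6 : (2 : ℝ) ^ (11 * N) ≤ (2 : ℝ) ^ ((N : ℤ) * a) * (2 : ℝ) ^ ((N : ℤ) * b) := by
      rw [← zpow_add₀ (by norm_num : (2 : ℝ) ≠ 0), ← mul_add, ← zpow_natCast]
      refine zpow_le_zpow_right₀ (by norm_num) ?_
      push_cast
      nlinarith
    have h7 : ‖U u a‖ * ‖V v b‖ * 2 ^ (11 * N) ≤ 2 ^ (10 * N) * ((10 * N + 1) * bnd u v) := by
      calc ‖U u a‖ * ‖V v b‖ * 2 ^ (11 * N)
          ≤ ‖U u a‖ * ‖V v b‖ * ((2 : ℝ) ^ ((N : ℤ) * a) * (2 : ℝ) ^ ((N : ℤ) * b)) :=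
            mul_le_mul_of_nonneg_left h6 (by positivity)
        _ = (‖U u a‖ * (2 : ℝ) ^ ((N : ℤ) * a)) * (‖V v b‖ * (2 : ℝ) ^ ((N : ℤ) * b)) := by ring
        _ ≤ _ := h4.trans h5
    have h8 : (2 : ℝ) ^ (11 * N) = 2 ^ (10 * N) * 2 ^ N := by
      rw [← pow_add]; congr 1; ring
    rw [h8] at h7
    have h9 : (0 : ℝ) < 2 ^ (10 * N) := by positivity
    refine le_of_mul_le_mul_left ?_ h9
    calc _ = ‖U u a‖ * ‖V v b‖ * (2 ^ (10 * N) * 2 ^ N) := by ring
      _ ≤ _ := h7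
  have hlim : Tendsto (fun N : ℕ => (10 * (N : ℝ) + 1) * bnd u v / 2 ^ N) atTop (𝓝 0) := by
    have t1 := tendsto_pow_const_div_const_pow_of_one_lt 1 (show (1 : ℝ) < 2 by norm_num)
    have t0 := tendsto_pow_const_div_const_pow_of_one_lt 0 (show (1 : ℝ) < 2 by norm_num)
    have t2 := ((t1.const_mul 10).add t0).mul_const (bnd u v)
    simp only [pow_one, pow_zero, mul_zero, add_zero, zero_mul] at t2
    refine t2.congr fun N => ?_
    ring
  have hpos : 0 < ‖U u a‖ * ‖V v b‖ := mul_pos hU hV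
  obtain ⟨N, hN1, hN2⟩ := ((hlim.eventually (gt_mem_nhds hpos)).and
    (eventually_ge_atTop (a.natAbs + b.natAbs + 1))).exists
  have h := key N (by omega) (by omega) (by omega)
  rw [div_lt_iff₀ (by positivity)] at hN1
  linarith

/-- **Titchmarsh type theorem.** -/
theorem titchmarsh (hu : Summable fun a => ‖u a‖ ^ 2) (hv : Summable fun b => ‖v b‖ ^ 2)
    (hconv : ∀ k : ℕ, ∑' a, U u a * V v ((k : ℤ) - a) = 0) {a b : ℤ} (ha : u a ≠ 0)
    (hb : v b ≠ 0) : a + b < 0 := by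
  obtain ⟨a1, ha1, ha1max⟩ := Int.exists_greatest_of_bdd (P := fun x => u x ≠ 0)
    ⟨10 - b, fun z hz => by have := sum_le_ten hu hv hconv hz hb; omega⟩ ⟨a, ha⟩
  obtain ⟨b1, hb1, hb1max⟩ := Int.exists_greatest_of_bdd (P := fun x => v x ≠ 0)
    ⟨10 - a, fun z hz => by have := sum_le_ten hu hv hconv ha hz; omega⟩ ⟨b, hb⟩
  have h1 := ha1max a ha
  have h2 := hb1max b hb
  by_contra hcon
  obtain ⟨k, hk⟩ := Int.eq_ofNat_of_zero_le (show 0 ≤ a1 + b1 by omega)
  have h3 := hconv k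
  rw [tsum_eq_single a1] at h3
  · have h4 : (k : ℤ) - a1 = b1 := by omega
    rw [h4, U, V] at h3
    have : u a1 * (2 : ℂ) ^ (-E (-a1)) * (v b1 * (2 : ℂ) ^ E b1) ≠ 0 :=
      mul_ne_zero (mul_ne_zero ha1 (zpow_ne_zero _ (by norm_num)))
        (mul_ne_zero hb1 (zpow_ne_zero _ (by norm_num)))
    exact this h3
  · intro x hx
    rcases lt_or_gt_of_ne hx with h4 | h4
    · have : v ((k : ℤ) - x) = 0 := by
        by_contra h5
        have := hb1max _ h5
        omega
      rw [V, this, zero_mul, mul_zero]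
    · have : u x = 0 := by
        by_contra h5
        have := ha1max _ h5
        omega
      rw [U, this, zero_mul, zero_mul]

end titchmarsh

section operator

/-- The Hilbert space of square summable two sided sequences. -/
abbrev H2 : Type := lp (fun _ : ℤ => ℂ) 2

lemma shift_mem (f : H2) :
    Memℓp (E := fun _ : ℤ => ℂ) (fun n => (2 : ℂ) ^ (-|n - 1|) * f (n - 1)) 2 := by
  have h := lp.memℓp f
  rw [memℓp_gen_iff (by norm_num)] at h ⊢
  have h1 : Summable fun n : ℤ => ‖f (n - 1)‖ ^ (2 : ENNReal).toReal :=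
    (Equiv.subRight (1 : ℤ)).summable_iff.2 h
  refine h1.of_nonneg_of_le (fun n => by positivity) fun n => ?_
  have h2 : ‖(2 : ℂ) ^ (-|n - 1|)‖ ≤ 1 := by
    rw [norm_zpow, Complex.norm_ofNat]
    exact zpow_le_one_of_nonpos (by have := abs_nonneg (n - 1); omega)
  refine Real.rpow_le_rpow (norm_nonneg _) ?_ (by norm_num)
  rw [norm_mul]
  exact mul_le_of_le_one_left (norm_nonneg _) h2

/-- The weighted shift as a linear map. -/
noncomputable def shiftLin : H2 →ₗ[ℂ] H2 where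
  toFun f := ⟨fun n => (2 : ℂ) ^ (-|n - 1|) * f (n - 1), shift_mem f⟩
  map_add' f g := by
    ext n
    show (2 : ℂ) ^ (-|n - 1|) * (f + g : H2) (n - 1) =
      (2 : ℂ) ^ (-|n - 1|) * f (n - 1) + (2 : ℂ) ^ (-|n - 1|) * g (n - 1)
    rw [lp.coeFn_add, Pi.add_apply, mul_add]
  map_smul' c f := by
    ext n
    show (2 : ℂ) ^ (-|n - 1|) * (c • f : H2) (n - 1) = c * ((2 : ℂ) ^ (-|n - 1|) * f (n - 1))
    rw [lp.coeFn_smul, Pi.smul_apply, smul_eq_mul]
    ring

lemma shiftLin_apply (f : H2) (n : ℤ) :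
    (shiftLin f : H2) n = (2 : ℂ) ^ (-|n - 1|) * f (n - 1) := rfl

lemma shiftLin_norm (f : H2) : ‖shiftLin f‖ ≤ 1 * ‖f‖ := by
  rw [one_mul]
  refine lp.norm_le_of_forall_sum_le (by norm_num) (norm_nonneg _) fun s => ?_
  have h2 : ∀ n : ℤ, ‖(2 : ℂ) ^ (-|n - 1|)‖ ≤ 1 := fun n => by
    rw [norm_zpow, Complex.norm_ofNat]
    exact zpow_le_one_of_nonpos (by have := abs_nonneg (n - 1); omega)
  calc ∑ n ∈ s, ‖(shiftLin f : H2) n‖ ^ (2 : ENNReal).toReal
      ≤ ∑ n ∈ s, ‖f (n - 1)‖ ^ (2 : ENNReal).toReal := by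
        refine Finset.sum_le_sum fun n _ => ?_
        refine Real.rpow_le_rpow (norm_nonneg _) ?_ (by norm_num)
        rw [shiftLin_apply, norm_mul]
        exact mul_le_of_le_one_left (norm_nonneg _) (h2 n)
    _ = ∑ n ∈ s.map (Equiv.subRight (1 : ℤ)).toEmbedding, ‖f n‖ ^ (2 : ENNReal).toReal := by
        rw [Finset.sum_map]; rfl
    _ ≤ ‖f‖ ^ (2 : ENNReal).toReal := lp.sum_rpow_le_norm_rpow (by norm_num) f _

/-- The bilateral weighted shift with weights `2 ^ (-|n|)`. -/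
noncomputable def shift : H2 →L[ℂ] H2 := shiftLin.mkContinuous 1 shiftLin_norm

lemma shift_apply (f : H2) (n : ℤ) :
    (shift f : H2) n = (2 : ℂ) ^ (-|n - 1|) * f (n - 1) := rfl

lemma shift_single (n : ℤ) :
    shift (lp.single 2 n (1 : ℂ)) = ((2 : ℂ) ^ (-|n|)) • lp.single 2 (n + 1) (1 : ℂ) := by
  ext m
  rw [shift_apply, lp.coeFn_smul, Pi.smul_apply, lp.single_apply, lp.single_apply,
    smul_eq_mul]
  by_cases h : m = n + 1
  · subst h
    simp
  · have h' : ¬ (m - 1 = n) := fun h' => h (by omega)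
    simp [h, h']

lemma shift_pow_apply (k : ℕ) (f : H2) (n : ℤ) :
    ((shift ^ k) f : H2) n = (2 : ℂ) ^ (E n - E (n - k)) * f (n - k) := by
  induction k generalizing n with
  | zero => simp
  | succ k ih =>
    rw [pow_succ', mul_apply_eq_comp, shift_apply, ih, ← mul_assoc,
      ← zpow_add₀ (by norm_num : (2 : ℂ) ≠ 0)]
    have h1 := E_succ (n - 1)
    rw [sub_add_cancel] at h1
    have h2 : n - 1 - (k : ℤ) = n - ((k + 1 : ℕ) : ℤ) := by push_cast; ring
    rw [h2]
    congr 2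
    rw [h1]
    ring

lemma summable_sq (f : H2) : Summable fun n : ℤ => ‖f n‖ ^ 2 := by
  have h := lp.memℓp f
  rw [memℓp_gen_iff (by norm_num)] at h
  refine h.congr fun n => ?_
  norm_num

/-- The key dichotomy for a vector and a functional annihilating its orbit. -/
lemma key_dichotomy (f g : H2) (horth : ∀ k : ℕ, ⟪g, (shift ^ k) f⟫_ℂ = 0) {m n : ℤ}
    (hm : f m ≠ 0) (hn : g n ≠ 0) : n < m := by
  have hu : Summable fun a : ℤ => ‖f (-a)‖ ^ 2 := (Equiv.neg ℤ).summable_iff.2 (summable_sq f)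
  have hv : Summable fun b : ℤ => ‖star (g b)‖ ^ 2 := by
    simpa only [norm_star] using summable_sq g
  have hconv : ∀ k : ℕ, ∑' a, U (fun a => f (-a)) a * V (fun b => star (g b)) ((k : ℤ) - a) = 0 := by
    intro k
    have h := horth k
    rw [lp.inner_eq_tsum] at h
    rw [← h, ← (Equiv.subLeft (k : ℤ)).tsum_eq]
    refine tsum_congr fun b => ?_
    simp only [Equiv.subLeft_apply, U, V]
    rw [RCLike.inner_apply, shift_pow_apply]
    have e1 : -((k : ℤ) - b) = b - k := by ring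
    have e2 : (k : ℤ) - (k - b) = b := by ring
    rw [e1, e2, zpow_sub₀ (by norm_num : (2 : ℂ) ≠ 0), zpow_neg, Complex.star_def]
    ring
  have h := titchmarsh hu hv hconv (a := -m) (b := n) (by simpa using hm) (by simpa using hn)
  omega

/-- Classification in coordinates. -/
lemma lat_shift (M : Submodule ℂ H2) (hM : IsClosed (M : Set H2)) (hinv : ∀ x ∈ M, shift x ∈ M) :
    M = ⊥ ∨ M = ⊤ ∨ ∃ k : ℤ, ∀ f : H2, f ∈ M ↔ ∀ n < k, f n = 0 := by
  have hpow : ∀ k : ℕ, ∀ f ∈ M, (shift ^ k) f ∈ M := by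
    intro k
    induction k with
    | zero => intro f hf; simpa using hf
    | succ k ih =>
      intro f hf
      rw [pow_succ', mul_apply_eq_comp]
      exact hinv _ (ih f hf)
  have hMoo : Mᗮᗮ = M := by
    rw [Submodule.orthogonal_orthogonal_eq_closure]
    exact hM.submodule_topologicalClosure_eq
  have hdich : ∀ g ∈ Mᗮ, ∀ f ∈ M, ∀ m n : ℤ, f m ≠ 0 → g n ≠ 0 → n < m := by
    intro g hg f hf m n hm hn
    refine key_dichotomy f g (fun k => ?_) hm hn
    rw [← inner_conj_symm, (Submodule.mem_orthogonal _ _).1 hg _ (hpow k f hf), map_zero]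
  by_cases hS : ∃ m : ℤ, ∃ f ∈ M, f m ≠ 0
  · by_cases hb : ∃ c : ℤ, ∀ z : ℤ, (∃ f ∈ M, f z ≠ 0) → c ≤ z
    · obtain ⟨c, hc⟩ := hb
      obtain ⟨m, ⟨f, hf, hfm⟩, hmin⟩ :=
        Int.exists_least_of_bdd (P := fun z => ∃ f ∈ M, f z ≠ 0) ⟨c, hc⟩ hS
      right; right
      refine ⟨m, fun h => ⟨fun hh n hn => ?_, fun hh => ?_⟩⟩
      · by_contra hne
        have := hmin n ⟨h, hh, hne⟩
        omega
      · rw [← hMoo, Submodule.mem_orthogonal]
        intro g hg
        rw [lp.inner_eq_tsum]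
        refine (tsum_congr fun n => ?_).trans tsum_zero
        rcases lt_or_ge n m with hn | hn
        · rw [hh n hn, inner_zero_right]
        · have : g n = 0 := by
            by_contra hne
            have := hdich g hg f hf m n hfm hne
            omega
          rw [this, inner_zero_left]
    · right; left
      push Not at hb
      rw [← hMoo, Submodule.orthogonal_eq_top_iff, eq_bot_iff]
      intro g hg
      rw [Submodule.mem_bot]
      ext n
      by_contra hne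
      obtain ⟨z, ⟨f, hf, hfz⟩, hz⟩ := hb n
      have := hdich g hg f hf z n hfz hne
      omega
  · left
    push Not at hS
    rw [eq_bot_iff]
    intro f hf
    rw [Submodule.mem_bot]
    ext n
    exact hS n f hf

end operator

section transfer

variable {H : Type*} [NormedAddCommGroup H] [InnerProductSpace ℂ H]

/-- Membership in the closed span of a tail of a Hilbert basis. -/
lemma mem_obvious (e : HilbertBasis ℤ ℂ H) (k : ℤ) (y : H) :
    y ∈ (Submodule.span ℂ (e '' Set.Ici k)).topologicalClosure ↔ ∀ n < k, e.repr y n = 0 := by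
  constructor
  · intro hy n hn
    have hcl : IsClosed {g : H | e.repr g n = 0} :=
      isClosed_eq (((lp.lipschitzWith_one_eval 2 n).continuous).comp e.repr.continuous)
        continuous_const
    have hsub : ((Submodule.span ℂ (e '' Set.Ici k) : Submodule ℂ H) : Set H) ⊆
        {g : H | e.repr g n = 0} := by
      intro g hg
      rw [SetLike.mem_coe] at hg
      induction hg using Submodule.span_induction with
      | mem x hx =>
        obtain ⟨j, hj, rfl⟩ := hx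
        show e.repr (e j) n = 0
        rw [e.repr_self, lp.single_apply]
        have hj' : k ≤ j := hj
        have : n ≠ j := by omega
        simp [this]
      | zero =>
        show e.repr 0 n = 0
        rw [map_zero]; rfl
      | add x y _ _ hx hy =>
        show e.repr (x + y) n = 0
        rw [map_add, lp.coeFn_add, Pi.add_apply, show e.repr x n = 0 from hx,
          show e.repr y n = 0 from hy, add_zero]
      | smul c x _ hx =>
        show e.repr (c • x) n = 0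
        rw [map_smul, lp.coeFn_smul, Pi.smul_apply, show e.repr x n = 0 from hx, smul_zero]
    exact closure_minimal hsub hcl hy
  · intro hy
    refine (Submodule.isClosed_topologicalClosure _).mem_of_tendsto (e.hasSum_repr y)
      (Eventually.of_forall fun s => ?_)
    refine Submodule.sum_mem _ fun i _ => ?_
    rcases lt_or_ge i k with hi | hi
    · rw [hy i hi, zero_smul]
      exact Submodule.zero_mem _
    · exact Submodule.smul_mem _ _
        (Submodule.le_topologicalClosure _ (Submodule.subset_span ⟨i, hi, rfl⟩))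

end transfer

/-- **The invariant subspaces of Halmos's bilateral weighted shift.** Let `e` be an orthonormal
basis of a Hilbert space `H` indexed by the integers. There is a bounded operator `W` on `H` with
`W e_n = 2 ^ (-|n|) e_{n+1}` for all `n`, and its closed invariant subspaces are exactly `0`, `H`
and the closed spans of `{e_n : n ≥ k}`, `k ∈ ℤ`. -/
theorem result {H : Type*} [NormedAddCommGroup H] [InnerProductSpace ℂ H] [CompleteSpace H]
    (e : HilbertBasis ℤ ℂ H) :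
    ∃ W : H →L[ℂ] H, (∀ n : ℤ, W (e n) = ((2 : ℂ) ^ (-|n|)) • e (n + 1)) ∧
      ∀ M : Submodule ℂ H, (IsClosed (M : Set H) ∧ ∀ x ∈ M, W x ∈ M) ↔
        (M = ⊥ ∨ M = ⊤ ∨
          ∃ k : ℤ, M = (Submodule.span ℂ (e '' Set.Ici k)).topologicalClosure) := by
  let φ : H2 →L[ℂ] H := (e.repr.symm.toContinuousLinearEquiv : H2 →L[ℂ] H)
  let ψ : H →L[ℂ] H2 := (e.repr.toContinuousLinearEquiv : H →L[ℂ] H2)
  have hφψ : ∀ y, φ (ψ y) = y := fun y => e.repr.symm_apply_apply y
  have hψφ : ∀ y, ψ (φ y) = y := fun y => e.repr.apply_symm_apply y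
  let W : H →L[ℂ] H := φ.comp (shift.comp ψ)
  have hW : ∀ y, W y = φ (shift (ψ y)) := fun y => rfl
  have hrel : ∀ n : ℤ, W (e n) = ((2 : ℂ) ^ (-|n|)) • e (n + 1) := by
    intro n
    have h1 : ψ (e n) = lp.single 2 n (1 : ℂ) := e.repr_self n
    have h2 : φ (lp.single 2 (n + 1) (1 : ℂ)) = e (n + 1) := e.repr_symm_single (n + 1)
    rw [hW, h1, shift_single, map_smul, h2]
  refine ⟨W, hrel, fun M => ⟨?_, ?_⟩⟩
  · rintro ⟨hM, hinv⟩
    let M' : Submodule ℂ H2 := M.comap (φ : H2 →ₗ[ℂ] H)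
    have hmem : ∀ x, x ∈ M' ↔ φ x ∈ M := fun x => Iff.rfl
    have hM' : IsClosed (M' : Set H2) := hM.preimage φ.continuous
    have hinv' : ∀ x ∈ M', shift x ∈ M' := by
      intro x hx
      rw [hmem] at hx ⊢
      have := hinv _ hx
      rwa [hW, hψφ] at this
    rcases lat_shift M' hM' hinv' with h | h | ⟨k, hk⟩
    · left
      rw [eq_bot_iff]
      intro y hy
      have h1 : ψ y ∈ M' := by rw [hmem, hφψ]; exact hy
      rw [h, Submodule.mem_bot] at h1
      rw [Submodule.mem_bot, ← hφψ y, h1, map_zero]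
    · right; left
      rw [eq_top_iff]
      intro y _
      have h1 : ψ y ∈ M' := by rw [h]; trivial
      rwa [hmem, hφψ] at h1
    · right; right
      refine ⟨k, ?_⟩
      ext y
      rw [mem_obvious]
      have h1 : y ∈ M ↔ ψ y ∈ M' := by rw [hmem, hφψ]
      rw [h1, hk]
      rfl
  · rintro (rfl | rfl | ⟨k, rfl⟩)
    · refine ⟨?_, fun x hx => ?_⟩
      · rw [Submodule.bot_coe]; exact isClosed_singleton
      · rw [Submodule.mem_bot] at hx ⊢
        rw [hx, map_zero]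
    · exact ⟨by rw [Submodule.top_coe]; exact isClosed_univ, fun _ _ => trivial⟩
    · refine ⟨Submodule.isClosed_topologicalClosure _, fun x hx => ?_⟩
      rw [mem_obvious] at hx ⊢
      intro n hn
      have h1 : e.repr (W x) = shift (ψ x) := hψφ (shift (ψ x))
      have h2 : (ψ x : H2) (n - 1) = 0 := hx (n - 1) (by omega)
      rw [h1, shift_apply, h2, mul_zero]

end Pool.Agent.Results.MP_1e8505_an.HalmosShift
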